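import Pool.Agent.TH164.Gou.Mt

/-!
# The motivated Mumford-Tate conjecture for direct sums of arbitrary André motives

Let `M j`, for `j` in a finite set `J`, be André motives over a finitely generated field `F` of
complex numbers, let `k` be the field of complex numbers (Hodge half of the conjecture) or the
completion of an algebraic closure of `ℚ_ℓ` (Galois half), and let `G` be the Lie algebra, tensored
with `k`, of the motivic Galois group of the direct sum of the `M j`. It acts on the realizations
`V j` of the `M j` with coefficients in `k`. Let `A` be the Lie subalgebra of `G` given by the
Mumford-Tate group of the sum of the `M j` (Hodge half), or by the Zariski closure of the image of the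
Galois group of `F` (Galois half). The conjecture says `A = G` in both cases (`Full`; this is the
equality of the identity components of the two groups). The images of `G` and of `A` in the
endomorphisms of `V j` are the corresponding Lie algebras for `M j`, and `FullOn A (V j)` is the
conjecture for `M j`.

Suppose that for all `j` but one, `j₀`, the action of `A` on `V j` is *told apart* from the action on
the other `V i` (`IsToldApart`): on `V j` the Lie algebra `A` is, modulo its centre, the product of
simple Lie algebras (`p a`), on the other `V i` it acts through Lie algebras `ρ b` (for instance the
Lie algebras of endomorphisms, or of symplectic or orthogonal similitudes, of some `V i`), and for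
all `a`, `b` there are an element `x` of `A` and a polynomial `P` such that the rank of `P (ad x)` on
`p a` is larger than its rank on `ρ b` (or `ρ b` is simple, `A` maps onto it and the rank on `ρ b` is
larger; see `Quo.Differ`). One can use

* in the Hodge half the element `x` which acts on the part of type `(p, q)` as `p`; then the rank of
  `P (ad x)` is a sum of Hodge numbers of the Lie algebra;
* in the Galois half a Sen operator `x` (multiplicities of Hodge-Tate weights), the logarithm of the
  monodromy at a place of bad reduction of `M j`, for instance where the other motives have good
  reduction, or an element of the Lie algebra of a Frobenius torus.

Then the conjecture for the sum of the `M j` is equivalent to the conjecture for all `M j` together with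
the conjecture for the characters of the motivic Galois group: a character of `G` which is trivial
on `A` is trivial. (The last condition concerns motives of rank one. It holds if all
of these belong to abelian varieties with complex multiplication; for instance if all `M j` with
`j ≠ j₀` have Lie algebras with centres consisting of homotheties only, and `M j₀` is an abelian
motive.)

Nothing is assumed about the motive `M j₀`. Example: `J = {0, 1}`, `j₀ = 0`; `M 1` is the
transcendental part of the second cohomology of a surface with `p_g ≥ 2`, with Mumford-Tate group and
Galois group given by the full orthogonal group (of rank at least three, not four), and `M 0` is any
abelian motive. The polynomial `P = X (X - 1) (X + 1)` tells them apart, because the Hodge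
numbers of the adjoint motive of an abelian motive are concentrated in the types `(1, -1)`, `(0, 0)`,
`(-1, 1)`, and those of the orthogonal Lie algebra are not.
-/

set_option autoImplicit false

namespace Pool.Agent.Results.MP_b8862a_ag.DirectSumsToldApart

open Pool.Agent.TH164.Gou

theorem result {k G : Type} [Field k] [LieRing G] [LieAlgebra k G] [FiniteDimensional k G]
    {J : Type} [Finite J] (A : LieSubalgebra k G) (V : J → Rp k G) (hF : Faithful V) (j₀ : J)
    (hT : ∀ j, j ≠ j₀ → IsToldApart A V j) :
    Full A ↔ (∀ j, FullOn A (V j)) ∧ FullOnChars A :=
  full_iff hF j₀ hT

end Pool.Agent.Results.MP_b8862a_ag.DirectSumsToldApart
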