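import Pool.Agent.TH776.FM.FourMain
import Pool.Agent.TH776.FM.Slopes
import Pool.Agent.TH776.FM.MTDefs
import Pool.Agent.W516.MT.AllFinal

/-!
# The Mumford-Tate conjecture for abelian varieties of any type, from one Frobenius polynomial whose
# slopes, or differences of conjugate slopes, are rarely prime to some prime number

Let `A` be ANY abelian variety over a finitely generated subfield of the complex numbers (there is no
condition on the endomorphisms: factors of type IV are allowed). Suppose that for ONE place of good
reduction, with residue field of `p ^ a` elements, the characteristic polynomial of the Frobenius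
element is the product of the minimal polynomials of Weil numbers `π i` which generate CM fields `K i`
of any degree, with any Galois groups. For an embedding `τ` of `K i` in an algebraic closure of `ℚ_p`
let `dev τ` be the deviation `2 v(τ π) - a` of the slope from the middle slope. Suppose:

* (`Independent`) for every `i` some automorphism of the complex numbers conjugates the embeddings of
  `K i` and fixes those of the other `K i'` (no condition for one field);
* each `π i` has one of the following properties. Let `v` be `dev`, or more generally a combination
  with integral values of `dev` and of one of its conjugates `dev ∘ σ` (`IsPencil`; for instance a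
  multiple of the difference `dev ∘ σ - dev`).
  - (`FewValues`) for some prime number `r`, the values prime to `r` of some `v` are those of one pair
    of conjugate embeddings; or the pairs `x`, `y` of embeddings for which the values prime to `r` of
    some `v` are those of `x`, `y` and their conjugates agree simultaneously on no element of the
    maximal real subfield `K⁺` except the rational numbers (for instance if there is one such pair and
    `K⁺` has no proper subfield except `ℚ`);
  - (`FewEvenValues`) some `v` is odd, except for one pair of conjugate embeddings, or for two pairs
    whose embeddings agree only on `ℚ` in `K⁺` (for two pairs, and `[K : ℚ]` four modulo eight, it is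
    also supposed that `K` has no real quadratic subfield);
* if the norm of `π i` to some imaginary quadratic subfield of `K i` is supersingular (`HasWeil`), then
  the degree of `K i` is different from two, four and eight.

Then all Tate classes in all spaces `(H^1)^{⊗ 2 n}(n)`, and so in the cohomology of all powers of `A`,
are linear combinations of Hodge classes. Together with the theorem of Deligne this is the
conjecture of Mumford and Tate for `A` and all its powers; by the theorem of André this is the
motivated Mumford-Tate conjecture for all motives in the tannakian category generated by `A`.

The Hodge classes need not be generated in degree two: supersingular norms to imaginary quadratic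
subfields give relations between the Frobenius eigenvalues (of length at least six), and if `A` is of
Weil type there are exceptional Hodge classes. The theorem says that nevertheless the Hodge group is
as large as the Galois group.

Second part: the slopes `0`, `a / 2`, `a`, with the middle slope at one or two pairs of embeddings
only, as above, have the property `FewEvenValues`. For instance: the dimension `g` of `A` is odd and
greater than one, the Frobenius polynomial of `A` at one place is irreducible, the reduction has
`p`-rank `g - 1` or `g - 2` and slopes `0`, `1 / 2`, `1` (`a = 1`); for `g - 2` it is also supposed that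
the field `K⁺` of degree `g` has no proper subfield except `ℚ`. The same is true for even `g > 4`
and `p`-rank `g - 1`.

Idea: a multiplicative relation between the conjugates of `π` is an odd function `c` on the embeddings
which is orthogonal to all Galois translates of `dev`, so also to those of `v`. Modulo `r` this gives
`v(x) c(g x) + v(y) c(g y) = 0` for all `g`, respectively, modulo two, that `c(g x) + c(g y)` does not
depend on `g`. A subfield through which a combination of two relations factors modulo `r`, and the
hypotheses, show that any two relations are proportional modulo `r`, so that all relations are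
multiples of one, whose absolute value is constant: it is a half system. So there are no nontrivial
relations of length four (half systems of six embeddings have three elements, and the length of a
relation is even), and an earlier theorem of this repository (`mt_of_four`) applies.
-/

namespace Pool.Agent.Results.MP_b8862a_ag.FewSlopesMumfordTate

open NumberField Module TensorProduct Pool.Agent.H204R3.GP Pool.Agent.W516.MTD
  Pool.Agent.W527.TateRing Pool.Agent.TH776.FS Pool.Agent.TH776.FM

/-- The Mumford-Tate conjecture for abelian varieties of any type, from one Frobenius polynomial with
few slopes, or differences of conjugate slopes, prime to a prime number. -/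
theorem result (p : ℕ) [Fact p.Prime] (a : ℕ) :
    (∀ (ℓ : ℕ) [Fact ℓ.Prime] {ι : Type} [Fintype ι] (X : ι → WeilNumber p a), Independent X →
      (∀ i, FewValues (X i) ∨ FewEvenValues (X i)) →
      (∀ i, HasWeil (X i) → finrank ℚ (X i).K ≠ 2 ∧ finrank ℚ (X i).K ≠ 4 ∧
        finrank ℚ (X i).K ≠ 8) →
      ∀ {H T Γ : Type} [AddCommGroup H] [Module ℚ H] [FiniteDimensional ℚ H] [AddCommGroup T]
        [Module ℂ T] [Group Γ] (per : H →+ T) (ω₀ : H →ₗ[ℚ] H →ₗ[ℚ] ℚ)
        (ρ : Representation ℚ_[ℓ] Γ (ℚ_[ℓ] ⊗[ℚ] H)) (χ : Γ →* ℚ_[ℓ])
        (ω : ℚ_[ℓ] ⊗[ℚ] H →ₗ[ℚ_[ℓ]] ℚ_[ℓ] ⊗[ℚ] H →ₗ[ℚ_[ℓ]] ℚ_[ℓ]),
        IsAbelianVariety per ω₀ ρ χ ω →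
        ∀ γ : Γ, χ γ = (p ^ a : ℕ) →
          (ρ γ).charpoly = (∏ i, minpoly ℚ (X i).π).map (algebraMap ℚ ℚ_[ℓ]) →
          ∀ (n : ℕ) (φ : MultilinearMap ℚ_[ℓ] (fun _ : Fin n × Fin 2 => ℚ_[ℓ] ⊗[ℚ] H) ℚ_[ℓ]),
            IsTateTensor ρ χ n φ → IsHodgeCombination per φ) ∧
    (0 < a → ∀ (X : WeilNumber p a) (x y : X.K →+* PadicAlgCl p), MiddleSlopes X x y →
      FewEvenValues X) :=
  ⟨fun _ _ _ _ _ hind hX hdeg _ _ _ _ _ _ _ _ _ per ω₀ ρ χ ω h γ hχ hγ n φ hφ =>
    Pool.Agent.W516.MTM.mt_of_four per ρ χ ω₀ ω h.hodge (fun u v => by rw [h.compatible, eq_ratCast])
      h.similitude h.deligne h.rational h.alt h.nondeg h.semisimple h.faltings h.centres γ hχ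
      (separable_of_independent hind) hγ (onlyTrivial hX hind hdeg) n φ hφ,
    fun ha X x y h => fewEvenValues_of_middle ha x y h.1 h.2.1 h.2.2⟩

end Pool.Agent.Results.MP_b8862a_ag.FewSlopesMumfordTate
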