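import Mathlib
import Pool.Agent.TH118.MT.Main

/-!
# The Mumford-Tate conjecture for abelian varieties with complex reflections in the inertia

Let `A` be an abelian variety over a finitely generated field of complex numbers, `W = H_1(A, ℚ)`
with the polarization form `ω₀`, `T` the tangent space at the origin and `per : W → T` the inclusion;
`V = ℚ_ℓ ⊗ W` is the rational Tate module, with the action `ρ` of the Galois group `Γ` (of the
field, or of a finite extension) and the cyclotomic character `χ`.  Let `K` be the algebraic closure
of `ℚ_ℓ` and `X = K ⊗ V`.  A subspace of `X` is *strongly irreducible* (`SI`) if it is a minimal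
nonzero subspace stable under a subgroup of finite index.

A multilinear form on `W` in `2 m` variables is a Hodge class (of type `(0, 0)` in
`(H^1)^{⊗ 2 m}(m)`) if it extends to a real multilinear form on `T` that is invariant under the
complex numbers of absolute value one (`IsHodgeTensor`).  The Mumford-Tate group consists of the
automorphisms `h` with multiplier `c` that fix all these classes (`InMumfordTate`).

Hypotheses.

* `hss`, `hF`: the theorems of Faltings (semisimplicity; the endomorphisms of `V` which commute with
  an open subgroup of the Galois group are combinations of endomorphisms of `A`).
* `hcen`: the theorem on the centre (Serre; Vasiu; Ullmo and Yafaev): the centres of the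
  Mumford-Tate group and of the `ℓ`-adic monodromy group have the same identity component.  It is used
  in the form: a Tate class which spans a line stable under the Mumford-Tate group is a
  combination of Hodge classes.  (The Mumford-Tate group acts on such a line through a character, which
  is trivial on the derived group, and equal to the `m`-th power of the multiplier on the centre,
  because this is so for the monodromy group.)
* `hE`: `X` is the sum of strongly irreducible subspaces `E i` of dimension at least three.  This
  holds for instance if the endomorphism algebra of `A` over the algebraic closure is a commutative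
  field `F` of degree at most `2 dim A / 3`; then the `E i` are the eigenspaces of `F`, one for each
  embedding of `F` in `K`.
* `hrefl`: for each `i` there is an element `γ` of the group (in an inertia group), of finite
  order on `X`, acting on each `E j` as a scalar times a complex reflection
  `u ↦ u + (ε j - 1) φ(u) d`, `φ(d) = 1`, where `ε i` is different from `1` and `-1` and from
  all other `ε j`.
* `hfrob`: for each `i` there is a diagonalizable element of the group (a Frobenius element) with two
  eigenvectors in `E i` such that the quotient of the eigenvalues is not a root of unity.

Theorem.  All Tate classes in all the tensor powers `(H^1)^{⊗ 2 m}(m)` are linear combinations of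
Hodge classes.  Both groups are reductive and determined by such invariants, so the Mumford-Tate group
is equal to the connected component of the `ℓ`-adic monodromy group: the Mumford-Tate conjecture holds
for `A`.  The Hodge classes on abelian varieties are motivated (André), so that the motivic Galois group
of `H^1(A)` is the same group, and the motivated Mumford-Tate conjecture holds for `A` and for all
the motives in the tannakian category generated by `H^1(A)` (and Artin motives).

Example: superelliptic curves.  Let `p` be an odd prime, `C` the curve `y ^ p = f(x)`, `A` its
Jacobian, of dimension `(p - 1) d / 2`, `3 ≤ d`, with endomorphism algebra over the algebraic closure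
equal to the field of the `p`-th roots of unity (this holds for instance if `f` has degree at
least five and the symmetric group as Galois group: Zarhin).  Suppose that there is ONE place `v`, of
residue characteristic different from `2`, `p` and `ℓ`, such that `f` modulo `v` has one double root
and no other multiple root, and that the valuation of `t` is prime to `p`, where `(x - a) ^ 2 - t` is
the factor of `f` over the completion that belongs to the double root.  Then the inertia group at `v`
acts on the eigenspaces `E i` (`i` a nonzero residue mod `p`) through a finite cyclic group, generated
by a complex reflection with eigenvalue `(-ζ ^ i) ^ c`, `c` prime to `p`.  So the Mumford-Tate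
conjecture holds for `A`; the abelian variety can have potentially good reduction everywhere, and
nothing is assumed on the multiplicities of the action of `ζ` on the tangent space.

The proof.  The Lie algebra of the operators that kill all Tate classes contains a nilpotent element of
rank one on `E i`, by averaging over the powers of the reflection, so it contains the special
linear Lie algebra of `E i`; the reflections also show that it contains the product of these.  By the
determinant form of the first fundamental theorem, all Tate classes are combinations of products of
Tate classes of degree two and of determinants of matrices of such classes.  The elements of the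
Mumford-Tate group commute with the projectors to the `E i` (Faltings), so that each such product
spans a line that is stable under the Mumford-Tate group.
-/

namespace Pool.Agent.Results.MP_b8862a_ag.ReflectionMumfordTate

open Module TensorProduct Pool.Agent.H204R3.SP Pool.Agent.H204R3.GP Pool.Agent.TH118.CR
open Pool.Agent.TH118.MT

theorem result (ℓ : ℕ) [Fact ℓ.Prime]
    -- the complex abelian variety `A` with a polarization
    {W T : Type} [AddCommGroup W] [Module ℚ W] [FiniteDimensional ℚ W] [AddCommGroup T] [Module ℂ T]
    (per : W →+ T) (ω₀ : W →ₗ[ℚ] W →ₗ[ℚ] ℚ) (halt : ∀ v, ω₀ v v = 0)
    (hnondeg : ∀ u, (∀ v, ω₀ v u = 0) → u = 0) (hω₀ : IsHodgeBilinear per ω₀)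
    -- the action of the Galois group on the Tate module
    {Γ : Type} [Group Γ] (ρ : Representation ℚ_[ℓ] Γ (ℚ_[ℓ] ⊗[ℚ] W)) (χ : Γ →* ℚ_[ℓ])
    (hω : ∀ s u v, bcb ℚ_[ℓ] ω₀ (ρ s u) (ρ s v) = χ s * bcb ℚ_[ℓ] ω₀ u v)
    -- the theorems of Faltings and the theorem on the centre
    (hss : FiniteIndexSemisimple ρ) (hF : FaltingsEnd per (incl ℚ_[ℓ] W) ρ)
    (hcen : CentreTheorem per (extend (k := ℚ_[ℓ]) (AlgebraicClosure ℚ_[ℓ]) (incl ℚ_[ℓ] W))
      (bcr ρ (AlgebraicClosure ℚ_[ℓ])) (bcc χ (AlgebraicClosure ℚ_[ℓ])))
    -- the reflections
    {I : Type} (E : I → Submodule (AlgebraicClosure ℚ_[ℓ])
      (AlgebraicClosure ℚ_[ℓ] ⊗[ℚ_[ℓ]] (ℚ_[ℓ] ⊗[ℚ] W)))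
    (hE : StronglyIrreducibleSum (bcr ρ (AlgebraicClosure ℚ_[ℓ])) E)
    (hrefl : HasReflections (bcr ρ (AlgebraicClosure ℚ_[ℓ])) E)
    (hfrob : HasFrobenii (bcr ρ (AlgebraicClosure ℚ_[ℓ])) E) :
    MumfordTate per (incl ℚ_[ℓ] W) ρ χ :=
  mumfordTate_of_ext (AlgebraicClosure ℚ_[ℓ]) ω₀ halt hnondeg hω₀ hω hss hF hcen
    fun ω _ _ hnd hinv hproj _ φ hφ => refl_det ω hnd hinv hproj hE hrefl hfrob φ hφ

end Pool.Agent.Results.MP_b8862a_ag.ReflectionMumfordTate
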