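import Mathlib
import Pool.Agent.TH127.SC.Char0

/-!
# The Mumford-Tate conjecture from one Frobenius element whose CM fields have small classes of
# embeddings

Let `A` be an abelian variety over a finitely generated subfield `K` of the complex numbers, of any
dimension and with arbitrary endomorphisms. Suppose that `A` has good reduction at ONE closed point
(of a model of `K`, with residue field of `p ^ a` elements) such that the characteristic polynomial of
the Frobenius element is the product of the minimal polynomials of Weil numbers `π i` that generate
CM fields `F i`.

Two complex embeddings `x`, `y` of the fields `F i` are *flipped* if some automorphism of `ℂ` fixes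
one of them and conjugates the other, or maps `x` to `y` and `y` to the complex conjugate of `x`. The
*classes* are those of the equivalence relation generated by not being flipped; each class consists
of `b` pairs of conjugate embeddings. We assume that the elements of a class are translates of each
other and one of the conditions (`ClassCondition`):

* (`GoodCondition`, no condition on the slopes) in each class `b` is `1` or a prime number, or any two
  pairs can be moved to any two others and `b` is odd or `b - 1` is prime or the same is true for
  three pairs; and the norms of the `π i` to CM subfields are separated, or the fields `F i` have no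
  proper CM subfields and are pairwise non-isomorphic and no `π i ^ 2 / p ^ a` is a root of unity;
* (`SlopeCondition`) all positive powers of `π i` generate `F i`, and for each class either the
  distances of the slopes from `1 / 2` are odd multiples of one number and `b` is `1`, a prime number,
  a power of `2` and some automorphism acts on the class as an odd permutation, or `b` is odd and any
  two pairs can be moved to any two others; or `b` is a power of a prime number `r` and the
  normalised distances of the slopes have no half system of the class with a sum divisible by `r`.

Then, for all primes `ℓ ≠ p`, all Tate classes in the tensor powers of `H^1` (and so in the cohomology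
of all powers of `A`) are linear combinations of products of Hodge classes of degree two. Together
with the theorem of Deligne (Hodge classes are Tate classes) this is the equality of the Mumford-Tate
group (over `ℚ_ℓ`) and of the connected component of the `ℓ`-adic monodromy group, and these classes
are algebraic by the theorem of Lefschetz, so that the motivic Galois group is the same group: the
motivated Mumford-Tate conjecture holds for all motives in the category generated by `H^1(A)`.

In the Lean statement `W` is `H_1(A, ℚ)`, `T` the tangent space at the origin and `per : W → T` the
inclusion, `ω₀` is the form given by a polarization; `V` is the rational Tate module with the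
comparison map `comp : W → V`, the action `ρ` of the Galois group and the Weil pairing `ω`; `χ` is
the cyclotomic character and `γ` the Frobenius element. The hypotheses `FiniteIndexSemisimple` and
`FaltingsEnd` are the theorems of Faltings.
-/

namespace Pool.Agent.Results.MP_b8862a_ag.SmallClasses

open NumberField Module Pool.Agent.H204R3.GP IntermediateField Pool.Agent.TH127.SC

theorem result (ℓ p : ℕ) [Fact ℓ.Prime] [Fact p.Prime] (a : ℕ) (ha : 0 < a)
    {ι : Type} [Fintype ι] (F : ι → Type) [∀ i, Field (F i)] [∀ i, NumberField (F i)]
    [∀ i, IsCMField (F i)] (π : ∀ i, F i) (hint : ∀ i, IsIntegral ℤ (π i))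
    (hgen : ∀ i, ℚ⟮π i⟯ = ⊤)
    (hweil : ∀ i, π i * IsCMField.complexConj (F i) (π i) = (p : F i) ^ a)
    (hclass : ClassCondition p a π)
    -- the complex torus `A(ℂ)` with a polarization
    {W T : Type} [AddCommGroup W] [Module ℚ W] [AddCommGroup T] [Module ℂ T] (per : W →+ T)
    (ω₀ : W →ₗ[ℚ] W →ₗ[ℚ] ℚ) (hω₀ : IsHodgeBilinear per ω₀)
    -- the Tate module
    {V : Type} [AddCommGroup V] [Module ℚ_[ℓ] V] [FiniteDimensional ℚ_[ℓ] V] (comp : W →+ V)
    {Γ : Type} [Group Γ] (ρ : Representation ℚ_[ℓ] Γ V) (χ : Γ →* ℚ_[ℓ])
    (ω : V →ₗ[ℚ_[ℓ]] V →ₗ[ℚ_[ℓ]] ℚ_[ℓ]) (halt : ∀ v, ω v v = 0)
    (hnondeg : ∀ u, (∀ v, ω v u = 0) → u = 0)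
    (hω : ∀ s u v, ω (ρ s u) (ρ s v) = χ s * ω u v)
    (hωω : ∀ x y, ω (comp x) (comp y) = ((ω₀ x y : ℚ) : ℚ_[ℓ]))
    (hss : FiniteIndexSemisimple ρ) (hF : FaltingsEnd per comp ρ)
    (γ : Γ) (hχ : χ γ = (p : ℚ_[ℓ]) ^ a)
    (hγ : (ρ γ).charpoly = ∏ i, (minpoly ℚ (π i)).map (algebraMap ℚ ℚ_[ℓ])) :
    MumfordTateStrong per comp ρ χ :=
  mumfordTate_of_classes ha hint hgen hweil hclass per ω₀ hω₀ comp ρ χ ω halt hnondeg hω hωω hss hF
    γ hχ hγ

end Pool.Agent.Results.MP_b8862a_ag.SmallClasses
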